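import Pool.Agent.R181.MajPieces

/-!
# Congruences of algebras with Gumm operations

Modularity of the congruences, and the structure of the classes of the upper median of three congruences.
-/

set_option autoImplicit false

namespace Pool.Agent.H336.Gumm

open Pool.Agent.R181.Maj (Compat compat_inf compat_sup sup_map)

/-- The ternary operations `q 0, ..., q n` and `p` are Gumm operations: they satisfy the identities
`q₀(x,y,z) = x`, `qᵢ(x,y,x) = x`, `qᵢ(x,y,y) = qᵢ₊₁(x,y,y)` for even `i`,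
`qᵢ(x,x,y) = qᵢ₊₁(x,x,y)` for odd `i`, `qₙ(x,y,y) = p(x,y,y)` and `p(x,x,y) = y`. -/
structure IsGumm {A : Type*} (n : ℕ) (q : ℕ → A → A → A → A) (p : A → A → A → A) : Prop where
  first : ∀ x y z, q 0 x y z = x
  mid : ∀ i ≤ n, ∀ x y, q i x y x = x
  even : ∀ i < n, i % 2 = 0 → ∀ x y, q i x y y = q (i + 1) x y y
  odd : ∀ i < n, i % 2 = 1 → ∀ x y, q i x x y = q (i + 1) x x y
  last : ∀ x y, q n x y y = p x y y
  diff : ∀ x y, p x x y = y

variable {A : Type*} {n : ℕ} {q : ℕ → A → A → A → A} {p : A → A → A → A}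

/-- `s` is compatible with the operations. -/
def Cg (n : ℕ) (q : ℕ → A → A → A → A) (p : A → A → A → A) (s : Setoid A) : Prop :=
  (∀ i ≤ n, Compat (q i) s) ∧ Compat p s

theorem Cg.inf {s t : Setoid A} (hs : Cg n q p s) (ht : Cg n q p t) : Cg n q p (s ⊓ t) :=
  ⟨fun i hi => compat_inf (hs.1 i hi) (ht.1 i hi), compat_inf hs.2 ht.2⟩

theorem Cg.sup {s t : Setoid A} (hs : Cg n q p s) (ht : Cg n q p t) : Cg n q p (s ⊔ t) :=
  ⟨fun i hi => compat_sup (hs.1 i hi) (ht.1 i hi), compat_sup hs.2 ht.2⟩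

theorem chain (h : IsGumm n q p) {δ : Setoid A} {a b : A}
    (hq : ∀ i ≤ n, δ (q i a a b) (q i a b b)) : δ a (p a b b) := by
  have key : ∀ i, i ≤ n → δ a (q i a b b) := by
    intro i
    induction i with
    | zero => intro _; rw [h.first]
    | succ i ih =>
      intro hi
      have h1 := ih (by omega)
      rcases Nat.mod_two_eq_zero_or_one i with h2 | h2
      · rw [← h.even i (by omega) h2]; exact h1
      · have h3 := hq i (by omega)
        rw [h.odd i (by omega) h2] at h3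
        exact δ.trans h1 (δ.trans (δ.symm h3) (hq (i + 1) hi))
  rw [← h.last]
  exact key n le_rfl

/-- The iterated composition of `β` and `γ`. -/
def D (β γ : Setoid A) : ℕ → A → A → Prop
  | 0, x, y => β x y
  | k + 1, x, y => ∃ c d, D β γ k x c ∧ γ c d ∧ D β γ k d y

section D

variable {β γ : Setoid A}

theorem D_refl (k : ℕ) (x : A) : D β γ k x x := by
  induction k with
  | zero => exact β.refl _
  | succ k ih => exact ⟨x, x, ih, γ.refl _, ih⟩

theorem D_symm (k : ℕ) : ∀ x y : A, D β γ k x y → D β γ k y x := by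
  induction k with
  | zero => intro x y h; exact β.symm h
  | succ k ih =>
    rintro x y ⟨c, d, h1, h2, h3⟩
    exact ⟨d, c, ih _ _ h3, γ.symm h2, ih _ _ h1⟩

theorem D_compat {m : A → A → A → A} (hβ : Compat m β) (hγ : Compat m γ) (k : ℕ) :
    ∀ a a' b b' c c' : A, D β γ k a a' → D β γ k b b' → D β γ k c c' →
      D β γ k (m a b c) (m a' b' c') := by
  induction k with
  | zero => exact hβ
  | succ k ih =>
    rintro a a' b b' c c' ⟨a1, a2, ha, ha', ha''⟩ ⟨b1, b2, hb, hb', hb''⟩ ⟨c1, c2, hc, hc', hc''⟩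
    exact ⟨m a1 b1 c1, m a2 b2 c2, ih _ _ _ _ _ _ ha hb hc, hγ _ _ _ _ _ _ ha' hb' hc',
      ih _ _ _ _ _ _ ha'' hb'' hc''⟩

theorem D_succ (k : ℕ) (x y : A) (h : D β γ k x y) : D β γ (k + 1) x y :=
  ⟨y, y, h, γ.refl _, D_refl k y⟩

theorem D_mono {k m : ℕ} (hkm : k ≤ m) (x y : A) (h : D β γ k x y) : D β γ m x y := by
  induction m, hkm using Nat.le_induction with
  | base => exact h
  | succ m _ ih => exact D_succ m x y ih

theorem sup_of_D (k : ℕ) : ∀ x y : A, D β γ k x y → (β ⊔ γ) x y := by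
  induction k with
  | zero => intro x y h; exact (le_sup_left : β ≤ β ⊔ γ) h
  | succ k ih =>
    rintro x y ⟨c, d, h1, h2, h3⟩
    exact (β ⊔ γ).trans (ih _ _ h1) ((β ⊔ γ).trans ((le_sup_right : γ ≤ β ⊔ γ) h2) (ih _ _ h3))

theorem D_of_sup {x y : A} (h : (β ⊔ γ) x y) : ∃ k, D β γ k x y := by
  rw [Setoid.sup_eq_eqvGen] at h
  have h' : Relation.EqvGen (fun x y => β x y ∨ γ x y) x y := h
  clear h
  induction h' with
  | rel a b hab =>
    rcases hab with hab | hab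
    · exact ⟨0, hab⟩
    · exact ⟨1, a, b, β.refl _, hab, β.refl _⟩
  | refl a => exact ⟨0, β.refl _⟩
  | symm a b _ ih => obtain ⟨k, hk⟩ := ih; exact ⟨k, D_symm k _ _ hk⟩
  | trans a b c _ _ ih1 ih2 =>
    obtain ⟨k, hk⟩ := ih1
    obtain ⟨m, hm⟩ := ih2
    exact ⟨max k m + 1, b, b, D_mono (le_max_left _ _) _ _ hk, γ.refl _,
      D_mono (le_max_right _ _) _ _ hm⟩

end D

/-- The congruences of an algebra with Gumm operations are modular. -/
theorem modular (h : IsGumm n q p) {α β γ : Setoid A} (hα : Cg n q p α) (hβ : Cg n q p β)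
    (hγ : Cg n q p γ) (hle : γ ≤ α) : α ⊓ (β ⊔ γ) ≤ (α ⊓ β) ⊔ γ := by
  have hl : ∀ {x y}, (α ⊓ β) x y → ((α ⊓ β) ⊔ γ) x y :=
    fun {x y} h => (le_sup_left : α ⊓ β ≤ (α ⊓ β) ⊔ γ) h
  have hr : ∀ {x y}, γ x y → ((α ⊓ β) ⊔ γ) x y :=
    fun {x y} h => (le_sup_right : γ ≤ (α ⊓ β) ⊔ γ) h
  have key : ∀ k : ℕ, ∀ a b : A, α a b → D β γ k a b → ((α ⊓ β) ⊔ γ) a b := by
    intro k
    induction k with
    | zero => intro a b h1 h2; exact hl ⟨h1, h2⟩
    | succ k ih =>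
      intro a b hab hD
      have hsup := sup_of_D _ _ _ hD
      have h1 : ((α ⊓ β) ⊔ γ) a (p a b b) := by
        refine chain h fun i hi => ?_
        have hk : ∀ c, α (q i a c b) a := by
          intro c
          have := (hα.1 i hi) _ _ _ _ _ _ (α.refl a) (α.refl c) (α.symm hab)
          rwa [h.mid i hi] at this
        exact sup_map (s := β) (t := γ) (w := (α ⊓ β) ⊔ γ) (fun g => q i a g b)
          (fun x y hxy => hl ⟨α.trans (hk x) (α.symm (hk y)),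
            (hβ.1 i hi) _ _ _ _ _ _ (β.refl _) hxy (β.refl _)⟩)
          (fun x y hxy => hr ((hγ.1 i hi) _ _ _ _ _ _ (γ.refl _) hxy (γ.refl _))) hsup
      obtain ⟨c, d, hac, hcd, hdb⟩ := hD
      have h2 : ((α ⊓ β) ⊔ γ) (p a b b) (p c d b) := by
        refine ih _ _ ?_ (D_compat hβ.2 hγ.2 k _ _ _ _ _ _ hac (D_symm _ _ _ hdb) (D_refl _ _))
        have e1 : α (p a b b) (p b b b) := hα.2 _ _ _ _ _ _ hab (α.refl _) (α.refl _)
        have e2 : α (p c d b) (p c c b) := hα.2 _ _ _ _ _ _ (α.refl _) (α.symm (hle hcd)) (α.refl _)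
        rw [h.diff] at e1 e2
        exact α.trans e1 (α.symm e2)
      have h3 : ((α ⊓ β) ⊔ γ) (p c d b) b := by
        have e1 : γ (p c d b) (p c c b) := hγ.2 _ _ _ _ _ _ (γ.refl _) (γ.symm hcd) (γ.refl _)
        rw [h.diff] at e1
        exact hr e1
      exact Setoid.trans' _ h1 (Setoid.trans' _ h2 h3)
  intro a b hab
  obtain ⟨k, hk⟩ := D_of_sup hab.2
  exact key k a b hab.1 hk

/-! ### Three congruences -/

/-- Two of the relations hold. -/
def Two (θ : Fin 3 → Setoid A) (x y : A) : Prop := ∃ i j, i ≠ j ∧ θ i x y ∧ θ j x y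

/-- The lower median. -/
def lo (θ : Fin 3 → Setoid A) : Setoid A := Relation.EqvGen.setoid (Two θ)

/-- The upper median. -/
def up (θ : Fin 3 → Setoid A) : Setoid A where
  r x y := ∀ i j, i ≠ j → (θ i ⊔ θ j) x y
  iseqv := ⟨fun x i j _ => (θ i ⊔ θ j).refl x, fun h i j hij => (θ i ⊔ θ j).symm (h i j hij),
    fun h h' i j hij => (θ i ⊔ θ j).trans (h i j hij) (h' i j hij)⟩

variable {θ : Fin 3 → Setoid A}

theorem le_lo {i j : Fin 3} (hij : i ≠ j) : θ i ⊓ θ j ≤ lo θ :=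
  fun _ _ h => Relation.EqvGen.rel _ _ ⟨i, j, hij, h.1, h.2⟩

theorem lo_le {s : Setoid A} (h : ∀ i j, i ≠ j → θ i ⊓ θ j ≤ s) : lo θ ≤ s := by
  intro x y hxy
  have hxy' : Relation.EqvGen (Two θ) x y := hxy
  clear hxy
  induction hxy' with
  | rel a b hab => obtain ⟨i, j, hij, h1, h2⟩ := hab; exact h i j hij ⟨h1, h2⟩
  | refl a => exact s.refl _
  | symm a b _ ih => exact s.symm ih
  | trans a b c _ _ ih1 ih2 => exact s.trans ih1 ih2

theorem up_le {i j : Fin 3} (hij : i ≠ j) : up θ ≤ θ i ⊔ θ j := fun _ _ h => h i j hij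

theorem le_up {s : Setoid A} (h : ∀ i j, i ≠ j → s ≤ θ i ⊔ θ j) : s ≤ up θ :=
  fun _ _ hxy i j hij => h i j hij hxy

theorem lo_le_up : lo θ ≤ up θ := by
  refine lo_le fun i j hij => le_up fun i' j' hij' => ?_
  by_cases h : i' = i
  · rw [h]; exact inf_le_left.trans le_sup_left
  by_cases h' : i' = j
  · rw [h']; exact inf_le_right.trans le_sup_left
  · have : j' = i ∨ j' = j := by omega
    rcases this with h2 | h2
    · rw [h2]; exact inf_le_left.trans le_sup_right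
    · rw [h2]; exact inf_le_right.trans le_sup_right

theorem cg_lo (hθ : ∀ i, Cg n q p (θ i)) : Cg n q p (lo θ) := by
  have h : lo θ = θ 0 ⊓ θ 1 ⊔ θ 1 ⊓ θ 2 ⊔ θ 0 ⊓ θ 2 := by
    apply le_antisymm
    · refine lo_le fun i j hij => ?_
      have h01 : θ 0 ⊓ θ 1 ≤ θ 0 ⊓ θ 1 ⊔ θ 1 ⊓ θ 2 ⊔ θ 0 ⊓ θ 2 := le_sup_left.trans le_sup_left
      have h12 : θ 1 ⊓ θ 2 ≤ θ 0 ⊓ θ 1 ⊔ θ 1 ⊓ θ 2 ⊔ θ 0 ⊓ θ 2 := le_sup_right.trans le_sup_left
      have h02 : θ 0 ⊓ θ 2 ≤ θ 0 ⊓ θ 1 ⊔ θ 1 ⊓ θ 2 ⊔ θ 0 ⊓ θ 2 := le_sup_right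
      obtain rfl | rfl | rfl : i = 0 ∨ i = 1 ∨ i = 2 := by omega
      all_goals obtain rfl | rfl | rfl : j = 0 ∨ j = 1 ∨ j = 2 := by omega
      all_goals first
        | exact absurd rfl hij
        | exact h01
        | exact h02
        | exact h12
        | (rw [inf_comm]; first | exact h01 | exact h02 | exact h12)
    · exact sup_le (sup_le (le_lo (by decide)) (le_lo (by decide))) (le_lo (by decide))
  rw [h]
  exact (((hθ 0).inf (hθ 1)).sup ((hθ 1).inf (hθ 2))).sup ((hθ 0).inf (hθ 2))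

theorem cg_up (hθ : ∀ i, Cg n q p (θ i)) : Cg n q p (up θ) := by
  refine ⟨fun k hk => ?_, ?_⟩
  · intro a a' b b' c c' h1 h2 h3 i j hij
    exact ((hθ i).sup (hθ j)).1 k hk _ _ _ _ _ _ (h1 i j hij) (h2 i j hij) (h3 i j hij)
  · intro a a' b b' c c' h1 h2 h3 i j hij
    exact ((hθ i).sup (hθ j)).2 _ _ _ _ _ _ (h1 i j hij) (h2 i j hij) (h3 i j hij)

/-- The three congruences of the upper interval. -/
def ep (θ : Fin 3 → Setoid A) (i : Fin 3) : Setoid A := (θ i ⊓ up θ) ⊔ lo θ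

theorem cg_ep (hθ : ∀ i, Cg n q p (θ i)) (i : Fin 3) : Cg n q p (ep θ i) :=
  ((hθ i).inf (cg_up hθ)).sup (cg_lo hθ)

theorem lo_le_ep (i : Fin 3) : lo θ ≤ ep θ i := le_sup_right

theorem ep_le_up (i : Fin 3) : ep θ i ≤ up θ := sup_le inf_le_right lo_le_up

theorem third {i j : Fin 3} (hij : i ≠ j) : ∃ m, m ≠ i ∧ m ≠ j := by
  revert i j; decide

theorem others (i : Fin 3) : ∃ j m : Fin 3, j ≠ i ∧ m ≠ i ∧ j ≠ m := by
  revert i; decide

theorem ep_inf (h : IsGumm n q p) (hθ : ∀ i, Cg n q p (θ i)) {i j : Fin 3} (hij : i ≠ j) :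
    ep θ i ⊓ ep θ j ≤ lo θ := by
  obtain ⟨m, hmi, hmj⟩ := third hij
  have key : ∀ i j m : Fin 3, i ≠ j → m ≠ i → m ≠ j → ep θ i ≤ θ i ⊔ (θ j ⊓ θ m) := by
    intro i j m hij hmi hmj
    refine sup_le (inf_le_left.trans le_sup_left) (lo_le fun i' j' hij' => ?_)
    by_cases h1 : i' = i
    · rw [h1]; exact inf_le_left.trans le_sup_left
    by_cases h2 : j' = i
    · rw [h2]; exact inf_le_right.trans le_sup_left
    · have : (i' = j ∧ j' = m) ∨ (i' = m ∧ j' = j) := by omega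
      rcases this with ⟨rfl, rfl⟩ | ⟨rfl, rfl⟩
      · exact le_sup_right
      · rw [inf_comm]; exact le_sup_right
  have h1 := key i j m hij hmi hmj
  have h2 := key j i m hij.symm hmj hmi
  have h3 : ep θ i ⊓ ep θ j ≤ (θ j ⊔ (θ i ⊓ θ m)) ⊓ (θ i ⊔ (θ j ⊓ θ m)) :=
    le_inf (inf_le_right.trans h2) (inf_le_left.trans h1)
  have h4 := modular h (α := θ j ⊔ (θ i ⊓ θ m)) (β := θ i) (γ := θ j ⊓ θ m)
    ((hθ j).sup ((hθ i).inf (hθ m))) (hθ i) ((hθ j).inf (hθ m)) (inf_le_left.trans le_sup_left)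
  have h5 := modular h (α := θ i) (β := θ j) (γ := θ i ⊓ θ m) (hθ i) (hθ j)
    ((hθ i).inf (hθ m)) inf_le_left
  refine h3.trans (h4.trans (sup_le ?_ (le_lo hmj.symm)))
  rw [inf_comm]
  exact h5.trans (sup_le (le_lo hij) (le_lo hmi.symm))

theorem up_le_sup (h : IsGumm n q p) (hθ : ∀ i, Cg n q p (θ i)) {i j : Fin 3} (hij : i ≠ j) :
    up θ ≤ ep θ i ⊔ ep θ j := by
  obtain ⟨m, hmi, hmj⟩ := third hij
  have h1 : (θ i ⊔ θ m) ⊓ θ j ≤ θ j ⊓ up θ := by
    refine le_inf inf_le_right (le_up fun i' j' hij' => ?_)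
    by_cases h1 : i' = j
    · rw [h1]; exact inf_le_right.trans le_sup_left
    by_cases h2 : j' = j
    · rw [h2]; exact inf_le_right.trans le_sup_right
    · have : (i' = i ∧ j' = m) ∨ (i' = m ∧ j' = i) := by omega
      rcases this with ⟨rfl, rfl⟩ | ⟨rfl, rfl⟩
      · exact inf_le_left
      · rw [sup_comm]; exact inf_le_left
  have h2 := modular h (α := θ i ⊔ θ m) (β := θ j) (γ := θ i) ((hθ i).sup (hθ m)) (hθ j) (hθ i)
    le_sup_left
  have h3 : up θ ≤ θ i ⊔ (θ j ⊓ up θ) := by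
    refine (le_inf (up_le hmi.symm) (up_le hij.symm)).trans (h2.trans (sup_le ?_ le_sup_left))
    exact h1.trans le_sup_right
  have h4 := modular h (α := up θ) (β := θ i) (γ := θ j ⊓ up θ) (cg_up hθ) (hθ i)
    ((hθ j).inf (cg_up hθ)) inf_le_right
  refine (le_inf le_rfl h3).trans (h4.trans (sup_le ?_ ?_))
  · rw [inf_comm]; exact le_sup_left.trans le_sup_left
  · exact le_sup_left.trans le_sup_right

theorem abel1 (h : IsGumm n q p) (hθ : ∀ i, Cg n q p (θ i)) {i : Fin 3} {x y : A}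
    (hxy : ep θ i x y) : lo θ x (p x y y) := by
  obtain ⟨j, m, hji, hmi, hjm⟩ := others i
  refine chain h fun k hk => ?_
  have hc : ∀ c, ep θ i (q k x c y) x := by
    intro c
    have := (cg_ep hθ i).1 k hk _ _ _ _ _ _ ((ep θ i).refl x) ((ep θ i).refl c)
      ((ep θ i).symm hxy)
    rwa [h.mid k hk] at this
  exact sup_map (s := ep θ j) (t := ep θ m) (w := lo θ) (fun g => q k x g y)
    (fun a b hab => ep_inf h hθ hji.symm ⟨(ep θ i).trans (hc a) ((ep θ i).symm (hc b)),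
      (cg_ep hθ j).1 k hk _ _ _ _ _ _ ((ep θ j).refl _) hab ((ep θ j).refl _)⟩)
    (fun a b hab => ep_inf h hθ hmi.symm ⟨(ep θ i).trans (hc a) ((ep θ i).symm (hc b)),
      (cg_ep hθ m).1 k hk _ _ _ _ _ _ ((ep θ m).refl _) hab ((ep θ m).refl _)⟩)
    (up_le_sup h hθ hjm (ep_le_up i hxy))

theorem perm (h : IsGumm n q p) (hθ : ∀ i, Cg n q p (θ i)) {i j : Fin 3} {x c y : A}
    (h1 : ep θ i x c) (h2 : ep θ j c y) : ∃ w, ep θ j x w ∧ ep θ i w y := by
  refine ⟨p x c y, ?_, ?_⟩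
  · have h3 := lo_le_ep j (abel1 h hθ h1)
    exact (ep θ j).trans h3 ((cg_ep hθ j).2 _ _ _ _ _ _ ((ep θ j).refl _) ((ep θ j).refl _) h2)
  · have h3 := (cg_ep hθ i).2 _ _ _ _ _ _ ((ep θ i).refl x) ((ep θ i).symm h1) ((ep θ i).refl y)
    rwa [h.diff] at h3

theorem comp (h : IsGumm n q p) (hθ : ∀ i, Cg n q p (θ i)) {i j : Fin 3} (hij : i ≠ j) {x y : A}
    (hxy : up θ x y) : ∃ c, ep θ i x c ∧ ep θ j c y := by
  have h1 := up_le_sup h hθ hij hxy
  rw [Setoid.sup_eq_eqvGen] at h1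
  have h' : Relation.EqvGen (fun x y => ep θ i x y ∨ ep θ j x y) x y := h1
  clear h1 hxy
  induction h' with
  | rel a b hab =>
    rcases hab with hab | hab
    · exact ⟨b, hab, (ep θ j).refl _⟩
    · exact ⟨a, (ep θ i).refl _, hab⟩
  | refl a => exact ⟨a, (ep θ i).refl _, (ep θ j).refl _⟩
  | symm a b _ ih =>
    obtain ⟨c, h1, h2⟩ := ih
    obtain ⟨w, h3, h4⟩ := perm h hθ h1 h2
    exact ⟨w, (ep θ i).symm h4, (ep θ j).symm h3⟩
  | trans a b d _ _ ih1 ih2 =>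
    obtain ⟨c, h1, h2⟩ := ih1
    obtain ⟨e, h3, h4⟩ := ih2
    obtain ⟨w, h5, h6⟩ := perm h hθ ((ep θ i).symm h3) ((ep θ j).symm h2)
    exact ⟨w, (ep θ i).trans h1 ((ep θ i).symm h6), (ep θ j).trans ((ep θ j).symm h5) h4⟩

theorem abel (h : IsGumm n q p) (hθ : ∀ i, Cg n q p (θ i)) {x y : A}
    (hxy : up θ x y) : lo θ x (p x y y) := by
  obtain ⟨c, h1, h2⟩ := comp h hθ (i := 0) (j := 1) (by decide) hxy
  refine ep_inf h hθ (i := 0) (j := 1) (by decide) ⟨?_, ?_⟩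
  · have h3 := lo_le_ep 0 (abel1 h hθ ((ep θ 1).symm ((ep θ 1).symm h2)))
    have h4 := (cg_ep hθ 0).2 _ _ _ _ _ _ h1 ((ep θ 0).refl y) ((ep θ 0).refl y)
    exact (ep θ 0).trans h1 ((ep θ 0).trans h3 ((ep θ 0).symm h4))
  · have h3 := lo_le_ep 1 (abel1 h hθ h1)
    exact (ep θ 1).trans h3 ((cg_ep hθ 1).2 _ _ _ _ _ _ ((ep θ 1).refl x) h2 h2)

theorem vert (h : IsGumm n q p) (hθ : ∀ i, Cg n q p (θ i)) {i : Fin 3} {x y : A}
    (hxy : ep θ i x y) : ∀ y', lo θ y y' → ∃ x', lo θ x x' ∧ θ i x' y' := by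
  have key : ∀ x y, θ i x y → up θ x y → ∀ y', lo θ y y' → ∃ x', lo θ x x' ∧ θ i x' y' := by
    intro x y h1 h2 y' h3
    refine ⟨p x y y', ?_, ?_⟩
    · exact (lo θ).trans (abel h hθ h2)
        ((cg_lo hθ).2 _ _ _ _ _ _ ((lo θ).refl x) ((lo θ).refl y) h3)
    · have h4 := (hθ i).2 _ _ _ _ _ _ ((θ i).refl x) ((θ i).symm h1) ((θ i).refl y')
      rwa [h.diff] at h4
  rw [ep, Setoid.sup_eq_eqvGen] at hxy
  have h' : Relation.EqvGen (fun x y => (θ i ⊓ up θ) x y ∨ lo θ x y) x y := hxy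
  clear hxy
  have main : (∀ y', lo θ y y' → ∃ x', lo θ x x' ∧ θ i x' y') ∧
      (∀ x', lo θ x x' → ∃ y', lo θ y y' ∧ θ i y' x') := by
    induction h' with
    | rel a b hab =>
      rcases hab with hab | hab
      · exact ⟨key a b hab.1 hab.2, key b a ((θ i).symm hab.1) ((up θ).symm hab.2)⟩
      · exact ⟨fun y' hy' => ⟨y', (lo θ).trans hab hy', (θ i).refl _⟩,
          fun x' hx' => ⟨x', (lo θ).trans ((lo θ).symm hab) hx', (θ i).refl _⟩⟩
    | refl a => exact ⟨fun y' hy' => ⟨y', hy', (θ i).refl _⟩, fun y' hy' => ⟨y', hy', (θ i).refl _⟩⟩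
    | symm a b _ ih => exact ⟨ih.2, ih.1⟩
    | trans a b d _ _ ih1 ih2 =>
      refine ⟨fun y' hy' => ?_, fun x' hx' => ?_⟩
      · obtain ⟨b', hb', h1⟩ := ih2.1 y' hy'
        obtain ⟨a', ha', h2⟩ := ih1.1 b' hb'
        exact ⟨a', ha', (θ i).trans h2 h1⟩
      · obtain ⟨b', hb', h1⟩ := ih1.2 x' hx'
        obtain ⟨d', hd', h2⟩ := ih2.2 b' hb'
        exact ⟨d', hd', (θ i).trans h2 h1⟩
  exact main.1

end Pool.Agent.H336.Gumm
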