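import Pool.Agent.H336.Gumm.Grow

/-!
# The number of elements of closed vertex sets, and the greedy growth
-/

set_option autoImplicit false
set_option linter.unusedSectionVars false

namespace Pool.Agent.H336.Gumm

open Finset Classical
open Pool.Agent.R181.Maj (Share spn growth)
open Pool.Agent.R181.LW (card_image_le_of_factor)

variable {A : Type} [Fintype A] {X : Fin 3 → Type} {f : ∀ i, A → X i}

/-- The number of vertices of a class of the lower median. -/
theorem tc_span (x : A) : ∑ i, #((tc f x).image (f i)) ≤ #(tc f x) + 2 := by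
  have hne : 1 ≤ #(tc f x) := card_pos.2 ⟨x, self_tc x⟩
  obtain ⟨T, hT, hTe, hsp⟩ := growth (r := 3) (by norm_num) f x (tc f x)
    (fun y => mem_tc) (#(tc f x)) hne le_rfl
  have h1 : T = tc f x := eq_of_subset_of_card_le hT (by omega)
  subst h1
  have h2 : spn f (tc f x) = ∑ i, #((tc f x).image (f i)) := rfl
  omega

theorem pair_card {T : Finset A} {α β : Type*} [DecidableEq α] [DecidableEq β] (g : A → α)
    (c : A → β) :
    #(T.image fun x => (g x, c x)) =
      ∑ D ∈ T.image c, #((T.filter fun x => c x = D).image g) := by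
  rw [card_eq_sum_card_fiberwise (f := Prod.snd) (t := T.image c)]
  · refine sum_congr rfl fun D hD => ?_
    apply le_antisymm
    · refine card_le_card_of_injOn Prod.fst (fun y hy => ?_) (fun y hy y' hy' h => ?_)
      · rw [mem_coe, mem_filter, mem_image] at hy
        obtain ⟨⟨x, hx, rfl⟩, hD⟩ := hy
        exact mem_coe.2 (mem_image.2 ⟨x, mem_filter.2 ⟨hx, hD⟩, rfl⟩)
      · rw [mem_coe, mem_filter] at hy hy'
        exact Prod.ext h (hy.2.trans hy'.2.symm)
    · refine card_le_card_of_injOn (fun a => (a, D)) (fun a ha => ?_) (fun a _ a' _ h => ?_)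
      · rw [mem_coe, mem_image] at ha
        obtain ⟨x, hx, rfl⟩ := ha
        rw [mem_filter] at hx
        exact mem_coe.2 (mem_filter.2 ⟨mem_image.2 ⟨x, hx.1, by rw [hx.2]⟩, rfl⟩)
      · exact (Prod.mk.inj h).1
  · intro y hy
    rw [mem_coe, mem_image] at hy
    obtain ⟨x, hx, rfl⟩ := hy
    exact mem_coe.2 (mem_image_of_mem c hx)

theorem prod_card {T : Finset A} {α β γ : Type*} [DecidableEq α] [DecidableEq β] [DecidableEq γ]
    (a : A → α) (b : A → β) (c : A → γ)
    (h1 : ∀ x ∈ T, ∀ y ∈ T, ∃ w ∈ T, a w = a x ∧ b w = b y)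
    (h2 : ∀ x ∈ T, ∀ y ∈ T, (a x = a y ∧ b x = b y) ↔ c x = c y) :
    #(T.image c) = #(T.image a) * #(T.image b) := by
  have h3 : T.image (fun x => (a x, b x)) = T.image a ×ˢ T.image b := by
    ext ⟨u, v⟩
    rw [mem_product, mem_image, mem_image, mem_image]
    constructor
    · rintro ⟨x, hx, h⟩
      rw [Prod.mk.injEq] at h
      exact ⟨⟨x, hx, h.1⟩, ⟨x, hx, h.2⟩⟩
    · rintro ⟨⟨x, hx, rfl⟩, ⟨y, hy, rfl⟩⟩
      obtain ⟨w, hw, h4, h5⟩ := h1 x hx y hy
      exact ⟨w, hw, by rw [h4, h5]⟩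
  rw [← card_product, ← h3]
  apply le_antisymm
  · refine card_image_le_of_factor T (fun x => (a x, b x)) c fun x hx y hy h => ?_
    rw [Prod.mk.injEq] at h
    exact (h2 x hx y hy).1 h
  · refine card_image_le_of_factor T c (fun x => (a x, b x)) fun x hx y hy h => ?_
    rw [Prod.mk.injEq]
    exact (h2 x hx y hy).2 h

theorem arith (e b0 b1 b2 t0 t1 t2 N : ℕ) (hN : 0 < N) (h01 : N = t0 * t1) (h12 : N = t1 * t2)
    (h20 : N = t2 * t0) (h0 : t0 ≤ b0) (h1 : t1 ≤ b1) (h2 : t2 ≤ b2)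
    (h : b0 * t1 + b1 * t2 + b2 * t0 ≤ e + 2 * N) : b0 + b1 + b2 ≤ e + 2 := by
  have p0 : 0 < t0 := Nat.pos_of_ne_zero (by rintro rfl; omega)
  have p1 : 0 < t1 := Nat.pos_of_ne_zero (by rintro rfl; omega)
  have e1 : t1 = t2 := Nat.eq_of_mul_eq_mul_left p0 (by rw [← h01, h20, mul_comm])
  have e2 : t0 = t2 := Nat.eq_of_mul_eq_mul_left p1 (by rw [mul_comm, ← h01, h12])
  subst e1
  subst e2
  obtain ⟨s, rfl⟩ : ∃ s, t0 = s + 1 := ⟨t0 - 1, by omega⟩
  rcases Nat.eq_zero_or_pos s with rfl | hs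
  · omega
  · subst h01
    nlinarith [Nat.mul_le_mul_left s h0, Nat.mul_le_mul_left s h1, Nat.mul_le_mul_left s h2]

theorem count (hN : Nice f) {z : A} {B : ∀ i, Finset (X i)}
    (hsub : ∀ i, B i ⊆ (uc f z).image (f i)) (hB : Full f (uc f z) B)
    (hne : ∃ x ∈ uc f z, Ins f B x)
    (hcl : ∀ x ∈ uc f z, ∀ i j, i ≠ j → f i x ∈ B i → f j x ∈ B j → Ins f B x) :
    vn B ≤ en f (uc f z) B + 2 := by
  obtain ⟨x₀, hx₀, hIx₀⟩ := hne
  set T : Finset A := {x ∈ uc f z | Ins f B x} with hT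
  have hTu : ∀ x ∈ T, x ∈ uc f z := fun x hx => (mem_filter.1 hx).1
  have hTI : ∀ x ∈ T, Ins f B x := fun x hx => (mem_filter.1 hx).2
  have hx₀T : x₀ ∈ T := mem_filter.2 ⟨hx₀, hIx₀⟩
  have T1 : ∀ x ∈ uc f z, ∀ y ∈ uc f z, ∀ i j, i ≠ j → f i x ∈ B i → f j y ∈ B j →
      ∃ w ∈ T, ep (ker f) i x w ∧ ep (ker f) j w y := by
    intro x hx y hy i j hij h1 h2
    obtain ⟨w, h3, h4⟩ := hN.comp i j hij x y
      ((up (ker f)).trans ((up (ker f)).symm (mem_uc.1 hx)) (mem_uc.1 hy))
    have hw : w ∈ uc f z := uc_ep hx h3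
    exact ⟨w, mem_filter.2 ⟨hw, hcl w hw i j hij (hB i x hx w h3 h1)
      (hB j y hy w ((ep (ker f) j).symm h4) h2)⟩, h3, h4⟩
  have T2 : ∀ x ∈ T, ∀ y, lo (ker f) x y → y ∈ T := fun x hx y h =>
    mem_filter.2 ⟨uc_lo (hTu x hx) h, fun i => hB i x (hTu x hx) y (lo_le_ep i h) (hTI x hx i)⟩
  have T3 : ∀ i, B i = T.image (f i) := by
    intro i
    apply subset_antisymm
    · intro a ha
      obtain ⟨x, hx, rfl⟩ := mem_image.1 (hsub i ha)
      obtain ⟨j, hji, -⟩ := third (i := i) (j := i + 1) (by omega)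
      obtain ⟨w, hw, h1, -⟩ := T1 x hx x₀ hx₀ i j hji.symm ha (hIx₀ j)
      obtain ⟨x', h2, h3⟩ := hN.vert i w x ((ep (ker f) i).symm h1) x ((lo (ker f)).refl x)
      exact mem_image.2 ⟨x', T2 w hw x' h2, h3⟩
    · intro a ha
      obtain ⟨x, hx, rfl⟩ := mem_image.1 ha
      exact hTI x hx i
  let c : A → Quotient (lo (ker f)) := Quotient.mk _
  let r : ∀ i, A → Quotient (ep (ker f) i) := fun i => Quotient.mk _
  have hc : ∀ x y, c x = c y ↔ lo (ker f) x y := fun x y => Quotient.eq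
  have hr : ∀ i x y, r i x = r i y ↔ ep (ker f) i x y := fun i x y => Quotient.eq
  have hcr : ∀ i x y, c x = c y → r i x = r i y := fun i x y h =>
    (hr i x y).2 (lo_le_ep i ((hc x y).1 h))
  have F1 : ∀ i j, i ≠ j → #(T.image c) = #(T.image (r i)) * #(T.image (r j)) := by
    intro i j hij
    refine prod_card (r i) (r j) c ?_ ?_
    · intro x hx y hy
      obtain ⟨w, hw, h1, h2⟩ := T1 x (hTu x hx) y (hTu y hy) i j hij (hTI x hx i) (hTI y hy j)
      exact ⟨w, hw, (hr i w x).2 ((ep (ker f) i).symm h1), (hr j w y).2 h2⟩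
    · intro x _ y _
      constructor
      · rintro ⟨h1, h2⟩
        exact (hc x y).2 (hN.inf i j hij x y ((hr i x y).1 h1) ((hr j x y).1 h2))
      · intro h
        exact ⟨hcr i x y h, hcr j x y h⟩
  have F2 : ∀ i j, i ≠ j → #(T.image fun x => (f i x, c x)) = #(B i) * #(T.image (r j)) := by
    intro i j hij
    rw [T3 i]
    refine prod_card (f i) (r j) (fun x => (f i x, c x)) ?_ ?_
    · intro x hx y hy
      obtain ⟨w, hw, h1, h2⟩ := T1 x (hTu x hx) y (hTu y hy) i j hij (hTI x hx i) (hTI y hy j)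
      obtain ⟨x', h3, h4⟩ := hN.vert i w x ((ep (ker f) i).symm h1) x ((lo (ker f)).refl x)
      refine ⟨x', T2 w hw x' h3, h4, (hr j x' y).2 ?_⟩
      exact (ep (ker f) j).trans ((ep (ker f) j).symm (lo_le_ep j h3)) h2
    · intro x hx y hy
      constructor
      · rintro ⟨h1, h2⟩
        rw [Prod.mk.injEq]
        exact ⟨h1, (hc x y).2 (hN.inf i j hij x y (ep_of_eq (hTu x hx) (hTu y hy) h1)
          ((hr j x y).1 h2))⟩
      · intro h
        rw [Prod.mk.injEq] at h
        exact ⟨h.1, hcr j x y h.2⟩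
  have F3 : ∑ i, #(T.image fun x => (f i x, c x)) ≤ #T + 2 * #(T.image c) := by
    have h1 : ∀ i, #(T.image fun x => (f i x, c x)) =
        ∑ D ∈ T.image c, #((T.filter fun x => c x = D).image (f i)) := fun i => pair_card (f i) c
    rw [sum_congr rfl fun i _ => h1 i, sum_comm, card_eq_sum_card_image c T]
    have h2 : 2 * #(T.image c) = ∑ D ∈ T.image c, 2 := by rw [sum_const, smul_eq_mul, mul_comm]
    rw [h2, ← sum_add_distrib]
    refine sum_le_sum fun D hD => ?_
    obtain ⟨x, hx, rfl⟩ := mem_image.1 hD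
    have h3 : (T.filter fun y => c y = c x) = tc f x := by
      ext y
      rw [mem_filter, mem_tc, hc]
      exact ⟨fun h => (lo (ker f)).symm h.2, fun h => ⟨T2 x hx y h, (lo (ker f)).symm h⟩⟩
    rw [h3]
    exact tc_span x
  have F4 : ∀ i, #(T.image (r i)) ≤ #(B i) := by
    intro i
    rw [T3 i]
    exact card_image_le_of_factor T (f i) (r i) fun x hx y hy h =>
      (hr i x y).2 (ep_of_eq (hTu x hx) (hTu y hy) h)
  have hen : en f (uc f z) B = #T := rfl
  rw [hen, vn_eq]
  rw [Fin.sum_univ_three, F2 0 1 (by decide), F2 1 2 (by decide), F2 2 0 (by decide)] at F3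
  exact arith (#T) (#(B 0)) (#(B 1)) (#(B 2)) (#(T.image (r 0))) (#(T.image (r 1)))
    (#(T.image (r 2))) (#(T.image c)) (card_pos.2 ⟨c x₀, mem_image_of_mem c hx₀T⟩)
    (F1 0 1 (by decide)) (F1 1 2 (by decide)) (F1 2 0 (by decide)) (F4 0) (F4 1) (F4 2) F3

/-- The statement for the growth. -/
def St (f : ∀ i, A → X i) (z : A) (B : ∀ i, Finset (X i)) : Prop :=
  (∀ i, B i ⊆ (uc f z).image (f i)) ∧ Full f (uc f z) B ∧ (∃ x ∈ uc f z, Ins f B x) ∧
    vn B ≤ en f (uc f z) B + 3 ∧ ∀ k, 3 ≤ k → k ≤ vn B → Good f (uc f z) k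

theorem extend (hN : Nice f) {z : A} {B : ∀ i, Finset (X i)} (hB : St f z B) {x : A}
    (hx : x ∈ uc f z) (C : ∀ i, Finset (X i)) (h1 : ∀ i, B i ⊆ C i)
    (h2 : ∀ i, C i ⊆ un f B x i) (h3 : Ins f C x) (h4 : vn C ≤ en f (uc f z) C + 3)
    (h5 : ∀ k, vn B ≤ k → k ≤ vn C → Good f (uc f z) k) :
    St f z (un f B x) ∧ vn C ≤ vn (un f B x) := by
  obtain ⟨b1, b2, ⟨x₀, hx₀, hI⟩, b4, b5⟩ := hB
  have hun : un f C x = un f B x := by
    funext i
    apply subset_antisymm
    · exact union_subset (h2 i) subset_union_right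
    · exact union_subset_union (h1 i) (subset_refl _)
  have hle : vn C ≤ vn (un f B x) := vn_mono h2
  have hsub : ∀ i, un f B x i ⊆ (uc f z).image (f i) := fun i => union_subset (b1 i)
    (image_subset_image fun y hy => uc_lo hx (mem_tc.1 hy))
  obtain ⟨h6, h7⟩ := interp (fun y hy w h => uc_lo hy h) hx (vn (un f C x) - vn C) C
    (fun i => (h2 i).trans (hsub i)) h3 h4 (by rw [hun]; omega)
  rw [hun] at h6 h7
  refine ⟨⟨hsub, full_un hN b2 hx, ⟨x₀, hx₀, fun i => mem_union_left _ (hI i)⟩, h6, ?_⟩, hle⟩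
  intro k hk1 hk2
  by_cases hkB : k ≤ vn B
  · exact b5 k hk1 hkB
  by_cases hkC : k ≤ vn C
  · exact h5 k (by omega) hkC
  · exact h7 k (by omega) hk2

theorem next (hN : Nice f) {z : A} {B : ∀ i, Finset (X i)} (hB : St f z B)
    (hne : B ≠ fun i => (uc f z).image (f i)) : ∃ B', St f z B' ∧ vn B < vn B' := by
  have hB' := hB
  obtain ⟨b1, b2, ⟨x₀, hx₀, hI⟩, b4, b5⟩ := hB'
  by_cases hcl : ∀ x ∈ uc f z, ∀ i j, i ≠ j → f i x ∈ B i → f j x ∈ B j → Ins f B x
  · have hcnt := count hN b1 b2 ⟨x₀, hx₀, hI⟩ hcl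
    have hex : ∃ x ∈ uc f z, ∃ j, f j x ∈ B j ∧ ¬ Ins f B x := by
      have h1 : ∃ y ∈ uc f z, ¬ Ins f B y := by
        by_contra hcon
        push Not at hcon
        apply hne
        funext i
        refine subset_antisymm (b1 i) fun a ha => ?_
        obtain ⟨y, hy, rfl⟩ := mem_image.1 ha
        exact hcon y hy i
      obtain ⟨y, hy, hyI⟩ := h1
      obtain ⟨c, h2, h3⟩ := hN.comp 0 1 (by decide) x₀ y
        ((up (ker f)).trans ((up (ker f)).symm (mem_uc.1 hx₀)) (mem_uc.1 hy))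
      have hc : c ∈ uc f z := uc_ep hx₀ h2
      by_cases hcI : Ins f B c
      · exact ⟨y, hy, 1, b2 1 c hc y h3 (hcI 1), hyI⟩
      · exact ⟨c, hc, 0, b2 0 x₀ hx₀ c h2 (hI 0), hcI⟩
    obtain ⟨x, hx, j, hj, hxI⟩ := hex
    obtain ⟨i, t, hij, htj, hit⟩ := others j
    have hi : f i x ∉ B i := fun h => hxI (hcl x hx i j hij h hj)
    have ht : f t x ∉ B t := fun h => hxI (hcl x hx t j htj h hj)
    have ht' : f t x ∉ ad B i (f i x) t := by
      rw [ad, Function.update_of_ne hit.symm]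
      exact ht
    have v1 := vn_ad B i (f i x) hi
    have v2 := vn_ad (ad B i (f i x)) t (f t x) ht'
    have hall : ∀ s : Fin 3, s = i ∨ s = j ∨ s = t := by omega
    have hs1 : ∀ s, B s ⊆ ad (ad B i (f i x)) t (f t x) s := fun s =>
      (sub_ad B i (f i x) s).trans (sub_ad _ t (f t x) s)
    have hI2 : Ins f (ad (ad B i (f i x)) t (f t x)) x := by
      intro s
      rcases hall s with rfl | rfl | rfl
      · exact sub_ad _ _ _ _ (mem_ad _ _ _)
      · exact hs1 _ hj
      · exact mem_ad _ _ _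
    have he1 := en_mono (f := f) (S := uc f z) (sub_ad B i (f i x))
    have he2 := en_lt (S := uc f z) hs1 hx hxI hI2
    have him : ∀ s, f s x ∈ un f B x s := fun s =>
      mem_union_right _ (mem_image_of_mem _ (self_tc x))
    have hsub1 : ∀ s, ad B i (f i x) s ⊆ un f B x s :=
      ad_sub B _ i (f i x) (fun s => subset_union_left) (him i)
    have hsub2 : ∀ s, ad (ad B i (f i x)) t (f t x) s ⊆ un f B x s :=
      ad_sub _ _ t (f t x) hsub1 (him t)
    have hun : ∀ s, un f B x s ⊆ (uc f z).image (f s) := fun s => union_subset (b1 s)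
      (image_subset_image fun y hy => uc_lo hx (mem_tc.1 hy))
    obtain ⟨h6, h7⟩ := extend hN hB hx (ad (ad B i (f i x)) t (f t x)) hs1 hsub2 hI2 (by omega)
      (by
        intro k hk1 hk2
        rcases (by omega : k = vn B ∨ k = vn B + 1 ∨ k = vn B + 2) with rfl | rfl | rfl
        · exact ⟨B, b1, rfl, b4⟩
        · exact ⟨ad B i (f i x), fun s => (hsub1 s).trans (hun s), v1, by omega⟩
        · exact ⟨ad (ad B i (f i x)) t (f t x), fun s => (hsub2 s).trans (hun s), by omega,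
            by omega⟩)
    exact ⟨_, h6, by omega⟩
  · push Not at hcl
    obtain ⟨x, hx, i, j, hij, hi, hj, hxI⟩ := hcl
    obtain ⟨t, hti, htj⟩ := third hij
    have hall : ∀ s : Fin 3, s = i ∨ s = j ∨ s = t := by omega
    have ht : f t x ∉ B t := by
      intro ht
      apply hxI
      intro s
      rcases hall s with rfl | rfl | rfl
      · exact hi
      · exact hj
      · exact ht
    have v1 := vn_ad B t (f t x) ht
    have hI1 : Ins f (ad B t (f t x)) x := by
      intro s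
      rcases hall s with rfl | rfl | rfl
      · exact sub_ad _ _ _ _ hi
      · exact sub_ad _ _ _ _ hj
      · exact mem_ad _ _ _
    have he := en_lt (S := uc f z) (sub_ad B t (f t x)) hx hxI hI1
    have him : ∀ s, f s x ∈ un f B x s := fun s =>
      mem_union_right _ (mem_image_of_mem _ (self_tc x))
    have hsub1 : ∀ s, ad B t (f t x) s ⊆ un f B x s :=
      ad_sub B _ t (f t x) (fun s => subset_union_left) (him t)
    have hun : ∀ s, un f B x s ⊆ (uc f z).image (f s) := fun s => union_subset (b1 s)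
      (image_subset_image fun y hy => uc_lo hx (mem_tc.1 hy))
    obtain ⟨h6, h7⟩ := extend hN hB hx (ad B t (f t x)) (sub_ad B t (f t x)) hsub1 hI1 (by omega)
      (by
        intro k hk1 hk2
        rcases (by omega : k = vn B ∨ k = vn B + 1) with rfl | rfl
        · exact ⟨B, b1, rfl, b4⟩
        · exact ⟨ad B t (f t x), fun s => (hsub1 s).trans (hun s), v1, by omega⟩)
    exact ⟨_, h6, by omega⟩

/-- In every class of the upper median, `k` vertices span at least `k - 3` elements, for all `k`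
between `3` and the number of the vertices. -/
theorem greedy (hN : Nice f) (z : A) (k : ℕ) (hk : 3 ≤ k)
    (hk' : k ≤ vn fun i => (uc f z).image (f i)) : Good f (uc f z) k := by
  have hz : z ∈ uc f z := mem_uc.2 ((up (ker f)).refl z)
  have base : St f z (un f (fun _ => ∅) z) := by
    have hun : un f (fun i => {f i z}) z = un f (fun _ => ∅) z := by
      funext i
      have h1 : f i z ∈ (tc f z).image (f i) := mem_image_of_mem _ (self_tc z)
      rw [un, un, empty_union]
      exact union_eq_right.2 (singleton_subset_iff.2 h1)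
    have hsub : ∀ i, un f (fun _ => ∅) z i ⊆ (uc f z).image (f i) := fun i => by
      rw [un, empty_union]
      exact image_subset_image fun y hy => uc_lo hz (mem_tc.1 hy)
    have hI : Ins f (fun i => {f i z}) z := fun i => mem_singleton_self _
    have hv : vn (fun i => ({f i z} : Finset (X i))) = 3 := by simp [vn]
    have he : 1 ≤ en f (uc f z) (fun i => {f i z}) := card_pos.2 ⟨z, mem_filter.2 ⟨hz, hI⟩⟩
    have hs : ∀ i, ({f i z} : Finset (X i)) ⊆ un f (fun _ => ∅) z i := fun i => by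
      rw [← hun]
      exact subset_union_left
    have hle := vn_mono hs
    obtain ⟨h6, h7⟩ := interp (f := f) (fun y hy w h => uc_lo hy h) hz
      (vn (un f (fun i => {f i z}) z) - vn (fun i => ({f i z} : Finset (X i))))
      (fun i => {f i z}) (fun i => (hs i).trans (hsub i)) hI (by omega) (by rw [hun]; omega)
    rw [hun] at h6 h7
    refine ⟨hsub, full_un hN (fun i x _ y _ h => absurd h (notMem_empty _)) hz,
      ⟨z, hz, fun i => hs i (hI i)⟩, h6, fun k hk1 hk2 => h7 k (by omega) hk2⟩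
  have key : ∀ m : ℕ, ∃ B, St f z B ∧ (m ≤ vn B ∨ B = fun i => (uc f z).image (f i)) := by
    intro m
    induction m with
    | zero => exact ⟨_, base, Or.inl (Nat.zero_le _)⟩
    | succ m ih =>
      obtain ⟨B, hB, h | h⟩ := ih
      · by_cases hne : B = fun i => (uc f z).image (f i)
        · exact ⟨B, hB, Or.inr hne⟩
        · obtain ⟨B', hB', hlt⟩ := next hN hB hne
          exact ⟨B', hB', Or.inl (by omega)⟩
      · exact ⟨B, hB, Or.inr h⟩
  obtain ⟨B, hB, h | h⟩ := key k
  · exact hB.2.2.2.2 k hk h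
  · subst h
    exact hB.2.2.2.2 k hk hk'

end Pool.Agent.H336.Gumm
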