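import Pool.Agent.H336.Gumm.Alg

/-!
# Growth of dense configurations in the classes of the upper median
-/

set_option autoImplicit false

namespace Pool.Agent.H336.Gumm

open Finset Classical
open Pool.Agent.R181.Maj (Share spn growth)

variable {A : Type} [Fintype A] {X : Fin 3 → Type} (f : ∀ i, A → X i)

/-- The kernels of the coordinates. -/
def ker (i : Fin 3) : Setoid A := Setoid.ker (f i)

/-- All vertices of `x` are in `B`. -/
def Ins (B : ∀ i, Finset (X i)) (x : A) : Prop := ∀ i, f i x ∈ B i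

/-- The number of elements of `S` inside `B`. -/
noncomputable def en (S : Finset A) (B : ∀ i, Finset (X i)) : ℕ := #{x ∈ S | Ins f B x}

/-- The number of vertices. -/
def vn (B : ∀ i, Finset (X i)) : ℕ := ∑ i, #(B i)

/-- A vertex is added. -/
noncomputable def ad (B : ∀ i, Finset (X i)) (m : Fin 3) (a : X m) : ∀ i, Finset (X i) :=
  Function.update B m (insert a (B m))

omit [Fintype A] in
theorem vn_eq (B : ∀ i, Finset (X i)) : vn B = #(B 0) + #(B 1) + #(B 2) := by
  rw [vn, Fin.sum_univ_three]

theorem vn_ad (B : ∀ i, Finset (X i)) (m : Fin 3) (a : X m) (ha : a ∉ B m) :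
    vn (ad B m a) = vn B + 1 := by
  obtain rfl | rfl | rfl : m = 0 ∨ m = 1 ∨ m = 2 := by omega
  all_goals
    rw [vn_eq, vn_eq, ad]
    simp [Function.update, ha]
    try omega

theorem sub_ad (B : ∀ i, Finset (X i)) (m : Fin 3) (a : X m) (i : Fin 3) : B i ⊆ ad B m a i := by
  by_cases h : i = m
  · subst h
    rw [ad, Function.update_self]
    exact subset_insert _ _
  · rw [ad, Function.update_of_ne h]

theorem mem_ad (B : ∀ i, Finset (X i)) (m : Fin 3) (a : X m) : a ∈ ad B m a m := by
  rw [ad, Function.update_self]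
  exact mem_insert_self _ _

theorem ad_sub (B C : ∀ i, Finset (X i)) (m : Fin 3) (a : X m) (hBC : ∀ i, B i ⊆ C i)
    (ha : a ∈ C m) (i : Fin 3) : ad B m a i ⊆ C i := by
  by_cases h : i = m
  · subst h
    rw [ad, Function.update_self]
    exact insert_subset ha (hBC _)
  · rw [ad, Function.update_of_ne h]
    exact hBC _

theorem vn_mono {B C : ∀ i, Finset (X i)} (h : ∀ i, B i ⊆ C i) : vn B ≤ vn C :=
  sum_le_sum fun i _ => card_le_card (h i)

theorem eq_of_vn {B C : ∀ i, Finset (X i)} (h : ∀ i, B i ⊆ C i) (hv : vn C ≤ vn B) : B = C := by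
  funext i
  refine eq_of_subset_of_card_le (h i) ?_
  by_contra hlt
  push Not at hlt
  have : vn B < vn C := sum_lt_sum (fun j _ => card_le_card (h j)) ⟨i, mem_univ _, hlt⟩
  omega

variable {f}

theorem en_mono {S : Finset A} {B C : ∀ i, Finset (X i)} (h : ∀ i, B i ⊆ C i) :
    en f S B ≤ en f S C :=
  card_le_card fun x hx => by
    rw [mem_filter] at hx ⊢
    exact ⟨hx.1, fun i => h i (hx.2 i)⟩

theorem en_lt {S : Finset A} {B C : ∀ i, Finset (X i)} (h : ∀ i, B i ⊆ C i) {x : A} (hx : x ∈ S)
    (h1 : ¬ Ins f B x) (h2 : Ins f C x) : en f S B + 1 ≤ en f S C := by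
  refine card_lt_card ⟨fun y hy => ?_, fun hcon => ?_⟩
  · rw [mem_filter] at hy ⊢
    exact ⟨hy.1, fun i => h i (hy.2 i)⟩
  · have : x ∈ ({x ∈ S | Ins f C x} : Finset A) := mem_filter.2 ⟨hx, h2⟩
    exact h1 (mem_filter.1 (hcon this)).2

variable (f)

/-- `k` vertices span at least `k - 3` elements of `S`. -/
def Good (S : Finset A) (k : ℕ) : Prop :=
  ∃ B : ∀ i, Finset (X i), (∀ i, B i ⊆ S.image (f i)) ∧ vn B = k ∧ k ≤ en f S B + 3

/-- The class of `x` for the lower median. -/
noncomputable def tc (x : A) : Finset A := {y | lo (ker f) x y}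

/-- The union of `B` and the vertices of the class of `x`. -/
noncomputable def un (B : ∀ i, Finset (X i)) (x : A) : ∀ i, Finset (X i) :=
  fun i => B i ∪ (tc f x).image (f i)

variable {f}

theorem mem_tc {x y : A} : y ∈ tc f x ↔ lo (ker f) x y := by simp [tc]

theorem self_tc (x : A) : x ∈ tc f x := mem_tc.2 ((lo (ker f)).refl x)

theorem step {C : ∀ i, Finset (X i)} {x y : A} (hx : Ins f C x) (hy : lo (ker f) x y)
    (hy' : ¬ Ins f C y) : ∃ a b, lo (ker f) x a ∧ lo (ker f) x b ∧ Ins f C a ∧ ¬ Ins f C b ∧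
      Two (ker f) a b := by
  by_contra hcon
  push Not at hcon
  have h2 : ∀ a b, Relation.EqvGen (Two (ker f)) a b → lo (ker f) x a →
      (Ins f C a ↔ Ins f C b) := by
    intro a b hab
    induction hab with
    | rel a b h =>
      intro hxa
      have hxb : lo (ker f) x b := (lo (ker f)).trans hxa (Relation.EqvGen.rel _ _ h)
      constructor
      · intro ha
        by_contra hb
        exact hcon a b hxa hxb ha hb h
      · intro hb
        by_contra ha
        obtain ⟨i, j, hij, h1, h2⟩ := h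
        exact hcon b a hxb hxa hb ha ⟨i, j, hij, Eq.symm h1, Eq.symm h2⟩
    | refl a => intro _; exact Iff.rfl
    | symm a b hab ih =>
      intro hxb
      exact (ih ((lo (ker f)).trans hxb ((lo (ker f)).symm hab))).symm
    | trans a b c hab _ ih1 ih2 =>
      intro hxa
      exact (ih1 hxa).trans (ih2 ((lo (ker f)).trans hxa hab))
  exact hy' ((h2 x y hy ((lo (ker f)).refl x)).1 hx)

theorem interp {S : Finset A} (hS : ∀ x ∈ S, ∀ y, lo (ker f) x y → y ∈ S) {x : A} (hxS : x ∈ S) :
    ∀ (m : ℕ) (C : ∀ i, Finset (X i)), (∀ i, C i ⊆ S.image (f i)) → Ins f C x →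
    vn C ≤ en f S C + 3 → vn (un f C x) = vn C + m →
    vn (un f C x) ≤ en f S (un f C x) + 3 ∧
      ∀ k, vn C ≤ k → k ≤ vn (un f C x) → Good f S k := by
  intro m
  induction m with
  | zero =>
    intro C hC hx hv hm
    have hsub : ∀ i, C i ⊆ un f C x i := fun i => subset_union_left
    have h1 : C = un f C x := eq_of_vn hsub (by omega)
    rw [← h1]
    refine ⟨hv, fun k h1 h2 => ⟨C, hC, by omega, by omega⟩⟩
  | succ m ih =>
    intro C hC hx hv hm
    have h1 : ∃ y, lo (ker f) x y ∧ ¬ Ins f C y := by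
      by_contra hcon
      push Not at hcon
      have h2 : un f C x = C := by
        funext i
        refine union_eq_left.2 fun a ha => ?_
        obtain ⟨y, hy, rfl⟩ := mem_image.1 ha
        exact hcon y (mem_tc.1 hy) i
      rw [h2] at hm
      omega
    obtain ⟨y, hy, hy'⟩ := h1
    obtain ⟨a, b, hxa, hxb, ha, hb, i, j, hij, hi, hj⟩ := step hx hy hy'
    obtain ⟨t, hti, htj⟩ := third hij
    have hbS : b ∈ S := hS x hxS b hxb
    have hi' : f i b ∈ C i := by
      have : f i a = f i b := hi
      rw [← this]; exact ha i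
    have hj' : f j b ∈ C j := by
      have : f j a = f j b := hj
      rw [← this]; exact ha j
    have hall : ∀ s : Fin 3, s = i ∨ s = j ∨ s = t := by omega
    have ht : f t b ∉ C t := by
      intro ht
      apply hb
      intro s
      rcases hall s with rfl | rfl | rfl
      · exact hi'
      · exact hj'
      · exact ht
    have hbIns : Ins f (ad C t (f t b)) b := by
      intro s
      rcases hall s with rfl | rfl | rfl
      · exact sub_ad _ _ _ _ hi'
      · exact sub_ad _ _ _ _ hj'
      · exact mem_ad _ _ _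
    have he := en_lt (S := S) (sub_ad C t (f t b)) hbS hb hbIns
    have hvn := vn_ad C t (f t b) ht
    have hun : un f (ad C t (f t b)) x = un f C x := by
      funext s
      apply subset_antisymm
      · refine union_subset ?_ subset_union_right
        exact ad_sub C (un f C x) t (f t b) (fun i => subset_union_left)
          (mem_union_right _ (mem_image_of_mem _ (mem_tc.2 hxb))) s
      · exact union_subset_union (sub_ad C t (f t b) s) (subset_refl _)
    obtain ⟨h3, h4⟩ := ih (ad C t (f t b))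
      (fun s => ad_sub C (fun i => S.image (f i)) t (f t b) hC (mem_image_of_mem _ hbS) s)
      (fun s => sub_ad C t (f t b) s (hx s)) (by omega) (by rw [hun]; omega)
    rw [hun] at h3 h4
    refine ⟨h3, fun k hk1 hk2 => ?_⟩
    by_cases hk : k = vn C
    · exact ⟨C, hC, hk.symm, by omega⟩
    · exact h4 k (by omega) hk2

variable (f)

/-- The properties of relations closed under Gumm operations that we use. -/
structure Nice : Prop where
  inf : ∀ i j, i ≠ j → ∀ x y, ep (ker f) i x y → ep (ker f) j x y → lo (ker f) x y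
  comp : ∀ i j, i ≠ j → ∀ x y, up (ker f) x y → ∃ c, ep (ker f) i x c ∧ ep (ker f) j c y
  vert : ∀ i x y, ep (ker f) i x y → ∀ y', lo (ker f) y y' → ∃ x', lo (ker f) x x' ∧
    f i x' = f i y'

variable {f}

/-- The vertex sets are unions of classes. -/
def Full (f : ∀ i, A → X i) (S : Finset A) (B : ∀ i, Finset (X i)) : Prop :=
  ∀ i, ∀ x ∈ S, ∀ y, ep (ker f) i x y → f i x ∈ B i → f i y ∈ B i

/-- The class of the upper median. -/
noncomputable def uc (f : ∀ i, A → X i) (x : A) : Finset A := {y | up (ker f) x y}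

theorem mem_uc {x y : A} : y ∈ uc f x ↔ up (ker f) x y := by simp [uc]

theorem uc_lo {z x y : A} (hx : x ∈ uc f z) (h : lo (ker f) x y) : y ∈ uc f z :=
  mem_uc.2 ((up (ker f)).trans (mem_uc.1 hx) (lo_le_up h))

theorem uc_ep {i : Fin 3} {z x y : A} (hx : x ∈ uc f z) (h : ep (ker f) i x y) : y ∈ uc f z :=
  mem_uc.2 ((up (ker f)).trans (mem_uc.1 hx) (ep_le_up i h))

theorem ep_of_eq {i : Fin 3} {z x y : A} (hx : x ∈ uc f z) (hy : y ∈ uc f z)
    (h : f i x = f i y) : ep (ker f) i x y :=
  (le_sup_left : ker f i ⊓ up (ker f) ≤ ep (ker f) i)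
    ⟨h, (up (ker f)).trans ((up (ker f)).symm (mem_uc.1 hx)) (mem_uc.1 hy)⟩

theorem full_un (hN : Nice f) {z : A} {B : ∀ i, Finset (X i)} (hB : Full f (uc f z) B) {x : A}
    (hx : x ∈ uc f z) : Full f (uc f z) (un f B x) := by
  intro i a ha b hab h
  rcases mem_union.1 h with h | h
  · exact mem_union_left _ (hB i a ha b hab h)
  · obtain ⟨d, hd, hda⟩ := mem_image.1 h
    have hdx := mem_tc.1 hd
    have h1 : ep (ker f) i x b := (ep (ker f) i).trans (lo_le_ep i hdx)
      ((ep (ker f) i).trans (ep_of_eq (uc_lo hx hdx) ha hda) hab)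
    obtain ⟨x', h2, h3⟩ := hN.vert i x b h1 b ((lo (ker f)).refl b)
    exact mem_union_right _ (mem_image.2 ⟨x', mem_tc.2 h2, h3⟩)

end Pool.Agent.H336.Gumm
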