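import Pool.Agent.H336.Gumm.Count

/-!
# Triple systems which are unions of relations closed under Gumm operations
-/

set_option autoImplicit false
set_option linter.unusedSectionVars false

namespace Pool.Agent.H336.Gumm

open Finset Classical
open Pool.Agent.R181.LW (card_image_le_of_factor loomisWhitney)
open Pool.Agent.R181.Maj (edge edge_injective amgm MajorityPiece IsMaj SpanMore)

section total

variable {A : Type} [Fintype A] {X : Fin 3 → Type} {f : ∀ i, A → X i}

theorem nice_of_gumm {n : ℕ} {q : ℕ → A → A → A → A} {p : A → A → A → A} (h : IsGumm n q p)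
    (hθ : ∀ i, Cg n q p (ker f i)) : Nice f :=
  ⟨fun _ _ hij _ _ h1 h2 => ep_inf h hθ hij ⟨h1, h2⟩, fun _ _ hij _ _ hxy => comp h hθ hij hxy,
    fun _ _ _ hxy y' hy' => vert h hθ hxy y' hy'⟩

/-- The join of the other two kernels. -/
def J (f : ∀ i, A → X i) (k : Fin 3) : Setoid A := ker f (k + 1) ⊔ ker f (k + 2)

theorem ker_le_J {i k : Fin 3} (h : i ≠ k) : ker f i ≤ J f k := by
  have h1 : i = k + 1 ∨ i = k + 2 := by revert i k; decide
  rcases h1 with rfl | rfl
  · exact le_sup_left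
  · exact le_sup_right

theorem total (K : ℕ) (hK : ∀ z, #(uc f z) ≤ K) :
    Fintype.card A ^ 2 ≤ K ^ 2 * ∏ i, #((univ : Finset A).image (f i)) := by
  rcases isEmpty_or_nonempty A with hA | ⟨⟨z₀⟩⟩
  · simp
  let g : A → ∀ k, Quotient (J f k) := fun x k => Quotient.mk _ x
  have hg : ∀ x y, g x = g y ↔ up (ker f) x y := by
    intro x y
    constructor
    · intro h i j hij
      obtain ⟨k, hk⟩ : ∃ k : Fin 3, (i = k + 1 ∧ j = k + 2) ∨ (i = k + 2 ∧ j = k + 1) := by
        revert i j; decide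
      have h1 : J f k x y := Quotient.eq.1 (congrFun h k)
      rcases hk with ⟨rfl, rfl⟩ | ⟨rfl, rfl⟩
      · exact h1
      · rw [sup_comm]; exact h1
    · intro h
      funext k
      exact Quotient.eq.2 (h (k + 1) (k + 2) (by revert k; decide))
  set T : Finset (∀ k, Quotient (J f k)) := univ.image g with hT
  have h1 : Fintype.card A ≤ K * #T := by
    rw [← card_univ]
    refine card_le_mul_card_image (f := g) (univ : Finset A) K fun τ hτ => ?_
    obtain ⟨x, -, rfl⟩ := mem_image.1 hτ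
    have h2 : ({y ∈ (univ : Finset A) | g y = g x}) = uc f x := by
      ext y
      rw [mem_filter, mem_uc, hg]
      exact ⟨fun h => (up (ker f)).symm h.2, fun h => ⟨mem_univ _, (up (ker f)).symm h⟩⟩
    rw [h2]
    exact hK x
  have h3 := loomisWhitney 2 (fun k => Quotient (J f k)) T ⟨g z₀, mem_image_of_mem g (mem_univ _)⟩
  have h4 : ∀ i : Fin 3, #(T.image fun x => i.removeNth x) ≤ #((univ : Finset A).image (f i)) := by
    intro i
    rw [hT, image_image]
    refine card_image_le_of_factor univ (f i) _ fun x _ y _ hxy => ?_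
    funext k
    exact Quotient.eq.2 (ker_le_J (f := f) (i := i) (k := i.succAbove k)
      (Fin.succAbove_ne i k).symm hxy)
  calc Fintype.card A ^ 2 ≤ (K * #T) ^ 2 := Nat.pow_le_pow_left h1 2
    _ = K ^ 2 * #T ^ 2 := by ring
    _ ≤ K ^ 2 * ∏ i : Fin 3, #(T.image fun x => i.removeNth x) := Nat.mul_le_mul_left _ h3
    _ ≤ _ := Nat.mul_le_mul_left _ (prod_le_prod' fun i _ => h4 i)

end total

/-- `F` is a relation between three pairwise disjoint sets of vertices, closed under the
componentwise application of some Gumm operations on these sets. -/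
def GummPiece {V : Type} (F : Set (Finset V)) : Prop :=
  ∃ (X : Fin 3 → Type) (n : ℕ) (q : ∀ i, ℕ → X i → X i → X i → X i)
    (p : ∀ i, X i → X i → X i → X i) (f : (Σ i, X i) → V) (E : Set (∀ i, X i)),
    (∀ i, IsGumm n (q i) (p i)) ∧ Function.Injective f ∧
    (∀ k ≤ n, ∀ x ∈ E, ∀ y ∈ E, ∀ z ∈ E, (fun i => q i k (x i) (y i) (z i)) ∈ E) ∧
    (∀ x ∈ E, ∀ y ∈ E, ∀ z ∈ E, (fun i => p i (x i) (y i) (z i)) ∈ E) ∧ F = edge f '' E

/-- Every `k` vertices span fewer than `k - 3` elements of `H`. -/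
def Free {V : Type} (k : ℕ) (H : Set (Finset V)) : Prop :=
  ∀ S : Finset V, #S = k → {e ∈ H | e ⊆ S}.ncard + 3 < k

theorem edge_sub {V : Type} {X : Fin 3 → Type} (f : (Σ i, X i) → V) (x : ∀ i, X i)
    (S : Finset V) : edge f x ⊆ S ↔ ∀ i, f ⟨i, x i⟩ ∈ S := by
  rw [edge]
  constructor
  · intro h i
    exact h (mem_image_of_mem (fun i => f ⟨i, x i⟩) (mem_univ i))
  · intro h a ha
    obtain ⟨i, -, rfl⟩ := mem_image.1 ha
    exact h i

/-- The elements of `V` in `B`. -/
noncomputable def vs {V : Type} {X : Fin 3 → Type} (f : (Σ i, X i) → V)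
    (B : ∀ i, Finset (X i)) : Finset V := (univ.sigma B).image f

theorem card_vs {V : Type} {X : Fin 3 → Type} {f : (Σ i, X i) → V} (hf : Function.Injective f)
    (B : ∀ i, Finset (X i)) : #(vs f B) = vn B := by
  rw [vs, card_image_of_injective _ hf, card_sigma, vn]

theorem mem_vs {V : Type} {X : Fin 3 → Type} {f : (Σ i, X i) → V}
    {B : ∀ i, Finset (X i)} {i : Fin 3} {a : X i} (h : a ∈ B i) : f ⟨i, a⟩ ∈ vs f B :=
  mem_image_of_mem f (mem_sigma.2 ⟨mem_univ _, h⟩)

theorem piece_bound {V : Type} [Fintype V] {k : ℕ} (hk : k ≤ Fintype.card V)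
    {H : Set (Finset V)} (hH : Free k H) {F : Set (Finset V)} (hF : GummPiece F) (hFH : F ⊆ H) :
    27 * F.ncard ^ 2 ≤ (k - 4) ^ 2 * Fintype.card V ^ 3 := by
  obtain ⟨X, n, q, p, f, E, hG, hf, hq, hp, rfl⟩ := hF
  have hfi : ∀ i, Function.Injective fun a : X i => f ⟨i, a⟩ := fun i a b hab =>
    eq_of_heq (Sigma.mk.inj (hf hab)).2
  have : ∀ i, Finite (X i) := fun i => Finite.of_injective _ (hfi i)
  let _ : ∀ i, Fintype (X i) := fun i => Fintype.ofFinite (X i)
  let A : Type := {x // x ∈ E}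
  let _ : Fintype A := Fintype.ofFinite A
  let g : ∀ i, A → X i := fun i x => x.1 i
  let q' : ℕ → A → A → A → A := fun j x y z =>
    if h : j ≤ n then ⟨fun i => q i j (x.1 i) (y.1 i) (z.1 i), hq j h _ x.2 _ y.2 _ z.2⟩ else x
  let p' : A → A → A → A := fun x y z =>
    ⟨fun i => p i (x.1 i) (y.1 i) (z.1 i), hp _ x.2 _ y.2 _ z.2⟩
  have hq' : ∀ (j : ℕ) (hj : j ≤ n) (x y z : A), q' j x y z =
      ⟨fun i => q i j (x.1 i) (y.1 i) (z.1 i), hq j hj _ x.2 _ y.2 _ z.2⟩ :=
    fun j hj x y z => dif_pos hj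
  have hgumm : IsGumm n q' p' := by
    refine ⟨?_, ?_, ?_, ?_, ?_, ?_⟩
    · intro x y z
      rw [hq' 0 (Nat.zero_le _)]
      exact Subtype.ext (funext fun i => (hG i).first _ _ _)
    · intro j hj x y
      rw [hq' j hj]
      exact Subtype.ext (funext fun i => (hG i).mid j hj _ _)
    · intro j hj he x y
      rw [hq' j hj.le, hq' (j + 1) hj]
      exact Subtype.ext (funext fun i => (hG i).even j hj he _ _)
    · intro j hj he x y
      rw [hq' j hj.le, hq' (j + 1) hj]
      exact Subtype.ext (funext fun i => (hG i).odd j hj he _ _)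
    · intro x y
      rw [hq' n le_rfl]
      exact Subtype.ext (funext fun i => (hG i).last _ _)
    · intro x y
      exact Subtype.ext (funext fun i => (hG i).diff _ _)
  have hcg : ∀ i, Cg n q' p' (ker g i) := by
    intro i
    refine ⟨fun j hj => ?_, ?_⟩
    · intro a a' b b' c c' h1 h2 h3
      show (q' j a b c).1 i = (q' j a' b' c').1 i
      have h1' : a.1 i = a'.1 i := h1
      have h2' : b.1 i = b'.1 i := h2
      have h3' : c.1 i = c'.1 i := h3
      rw [hq' j hj, hq' j hj]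
      show q i j (a.1 i) (b.1 i) (c.1 i) = q i j (a'.1 i) (b'.1 i) (c'.1 i)
      rw [h1', h2', h3']
    · intro a a' b b' c c' h1 h2 h3
      have h1' : a.1 i = a'.1 i := h1
      have h2' : b.1 i = b'.1 i := h2
      have h3' : c.1 i = c'.1 i := h3
      show p i (a.1 i) (b.1 i) (c.1 i) = p i (a'.1 i) (b'.1 i) (c'.1 i)
      rw [h1', h2', h3']
  have hN : Nice g := nice_of_gumm hgumm hcg
  -- elements inside a set of vertices
  have hins : ∀ (T : Finset A) (S : Finset V), (∀ x ∈ T, ∀ i, f ⟨i, g i x⟩ ∈ S) →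
      #T ≤ {e ∈ H | e ⊆ S}.ncard := by
    intro T S hTS
    have h1 : Function.Injective fun x : A => edge f x.1 := fun x y h =>
      Subtype.ext (edge_injective hf h)
    rw [← card_image_of_injective T h1, ← Set.ncard_coe_finset]
    refine Set.ncard_le_ncard ?_ (Set.toFinite _)
    intro e he
    rw [coe_image] at he
    obtain ⟨x, hx, rfl⟩ := he
    exact ⟨hFH ⟨x.1, x.2, rfl⟩, (edge_sub f x.1 S).2 fun i => hTS x hx i⟩
  have hbound : ∀ z, #(uc g z) ≤ k - 4 := by
    intro z
    by_cases hv : k ≤ vn fun i => (uc g z).image (g i)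
    · exfalso
      by_cases hk3 : 3 ≤ k
      · obtain ⟨B, -, hBk, hBe⟩ := greedy hN z k hk3 hv
        have h1 := hins {x ∈ uc g z | Ins g B x} (vs f B) (fun x hx i =>
          mem_vs ((mem_filter.1 hx).2 i))
        have h2 := hH (vs f B) (by rw [card_vs hf, hBk])
        have h3 : en g (uc g z) B = #{x ∈ uc g z | Ins g B x} := rfl
        omega
      · obtain ⟨S, hS⟩ : ∃ S : Finset V, #S = k := by
          obtain ⟨S, -, hS⟩ := exists_superset_card_eq (s := (∅ : Finset V)) (by simp) hk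
          exact ⟨S, hS⟩
        have := hH S hS
        omega
    · push Not at hv
      obtain ⟨S, hS1, hS2⟩ := exists_superset_card_eq
        (s := vs f fun i => (uc g z).image (g i)) (n := k) (by rw [card_vs hf]; omega) hk
      have h1 := hins (uc g z) S (fun x hx i => hS1 (mem_vs (mem_image_of_mem _ hx)))
      have h2 := hH S hS2
      omega
  have h1 := total (f := g) (k - 4) hbound
  have h2 : (edge f '' E).ncard = Fintype.card A := by
    rw [Set.ncard_image_of_injective _ (edge_injective hf), ← Nat.card_coe_set_eq,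
      Nat.card_eq_fintype_card]
  have h3 : ∏ i, #((univ : Finset A).image (g i)) ≤ ∏ i, Fintype.card (X i) :=
    prod_le_prod' fun i _ => card_le_univ _
  have h4 := amgm (univ : Finset (Fin 3)) univ_nonempty fun i => Fintype.card (X i)
  rw [card_univ, Fintype.card_fin] at h4
  have h5 : ∑ i, Fintype.card (X i) ≤ Fintype.card V := by
    rw [← Fintype.card_sigma]
    exact Fintype.card_le_of_injective f hf
  rw [h2]
  calc 27 * Fintype.card A ^ 2
      ≤ 27 * ((k - 4) ^ 2 * ∏ i, Fintype.card (X i)) :=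
        Nat.mul_le_mul_left _ (h1.trans (Nat.mul_le_mul_left _ h3))
    _ = (k - 4) ^ 2 * (3 ^ 3 * ∏ i, Fintype.card (X i)) := by ring
    _ ≤ (k - 4) ^ 2 * (∑ i, Fintype.card (X i)) ^ 3 := Nat.mul_le_mul_left _ h4
    _ ≤ _ := Nat.mul_le_mul_left _ (Nat.pow_le_pow_left h5 _)

theorem upper (k L : ℕ) (V : Type) [Fintype V] (hk : k ≤ Fintype.card V) (H : Set (Finset V))
    (hfree : Free k H) (F : Fin L → Set (Finset V)) (hF : ∀ i, GummPiece (F i))
    (hFH : ∀ i, F i ⊆ H) :
    ((⋃ i, F i).ncard : ℝ) ≤ (k - 4) * L * ((Fintype.card V : ℝ) / 3) ^ (3 / 2 : ℝ) := by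
  have hk4 : 4 ≤ k := by
    obtain ⟨S, -, hS⟩ := exists_superset_card_eq (s := (∅ : Finset V)) (by simp) hk
    have := hfree S hS
    omega
  have hs1 : (0 : ℝ) ≤ (k : ℝ) - 4 := by
    have : (4 : ℝ) ≤ k := by exact_mod_cast hk4
    linarith
  have h1 : ∀ i, ((F i).ncard : ℝ) ≤ (k - 4) * ((Fintype.card V : ℝ) / 3) ^ (3 / 2 : ℝ) := by
    intro i
    have h2 := piece_bound hk hfree (hF i) (hFH i)
    refine le_of_pow_le_pow_left₀ (n := 2) (by norm_num) (by positivity) ?_
    have h3 : (((Fintype.card V : ℝ) / 3) ^ (3 / 2 : ℝ)) ^ 2 = ((Fintype.card V : ℝ) / 3) ^ 3 := by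
      rw [← Real.rpow_natCast, ← Real.rpow_mul (by positivity)]
      norm_num
    rw [mul_pow, h3]
    have h4 : ((27 * (F i).ncard ^ 2 : ℕ) : ℝ) ≤
        (((k - 4) ^ 2 * Fintype.card V ^ 3 : ℕ) : ℝ) := by exact_mod_cast h2
    rw [Nat.cast_mul, Nat.cast_mul, Nat.cast_pow, Nat.cast_pow, Nat.cast_pow,
      Nat.cast_sub hk4] at h4
    norm_num at h4
    rw [div_pow]
    linarith
  have h6 : (⋃ i, F i).ncard ≤ ∑ i : Fin L, (F i).ncard := Set.ncard_iUnion_le_of_fintype F
  calc ((⋃ i, F i).ncard : ℝ) ≤ ((∑ i : Fin L, (F i).ncard : ℕ) : ℝ) := by exact_mod_cast h6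
    _ = ∑ i : Fin L, ((F i).ncard : ℝ) := by push_cast; rfl
    _ ≤ ∑ _i : Fin L, (k - 4) * ((Fintype.card V : ℝ) / 3) ^ (3 / 2 : ℝ) :=
        sum_le_sum fun i _ => h1 i
    _ = (k - 4) * L * ((Fintype.card V : ℝ) / 3) ^ (3 / 2 : ℝ) := by
        rw [sum_const, card_univ, Fintype.card_fin, nsmul_eq_mul]; ring

/-- Majority operations are Gumm operations. -/
theorem gumm_of_maj {Y : Type} {μ : Y → Y → Y → Y} (h : IsMaj μ) :
    IsGumm 2 (fun j => if j = 2 then μ else fun x _ _ => x) (fun _ _ z => z) := by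
  refine ⟨fun x y z => by simp, ?_, ?_, ?_, ?_, fun x y => rfl⟩
  · intro j hj x y
    by_cases h2 : j = 2
    · simp only [h2, if_true]; exact (h x y).2.1
    · simp only [h2, if_false]
  · intro j hj he x y
    have : j = 0 := by omega
    subst this
    simp
  · intro j hj he x y
    have : j = 1 := by omega
    subst this
    simp [(h x y).1]
  · intro x y
    simp [(h y x).2.2]

theorem gumm_of_majority {V : Type} {F : Set (Finset V)} (h : MajorityPiece 3 F) :
    GummPiece F := by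
  obtain ⟨X, μ, f, E, hμ, hf, hE, rfl⟩ := h
  refine ⟨X, 2, fun i j => if j = 2 then μ i else fun x _ _ => x, fun i _ _ z => z, f, E,
    fun i => gumm_of_maj (hμ i), hf, ?_, fun x _ y _ z hz => hz, rfl⟩
  intro j _ x hx y hy z hz
  by_cases h2 : j = 2
  · simp only [h2, if_true]
    exact hE x hx y hy z hz
  · simp only [h2, if_false]
    exact hx

/-- `F` is a relation between three pairwise disjoint sets of vertices, closed under the
componentwise application of some Mal'tsev operations `μ i` on these sets: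
`μ(a, a, b) = b = μ(b, a, a)`. -/
def MaltsevPiece {V : Type} (F : Set (Finset V)) : Prop :=
  ∃ (X : Fin 3 → Type) (μ : ∀ i, X i → X i → X i → X i) (f : (Σ i, X i) → V)
    (E : Set (∀ i, X i)), (∀ i a b, μ i a a b = b ∧ μ i b a a = b) ∧ Function.Injective f ∧
    (∀ x ∈ E, ∀ y ∈ E, ∀ z ∈ E, (fun i => μ i (x i) (y i) (z i)) ∈ E) ∧ F = edge f '' E

theorem gumm_of_maltsev {V : Type} {F : Set (Finset V)} (h : MaltsevPiece F) :
    GummPiece F := by
  obtain ⟨X, μ, f, E, hμ, hf, hE, rfl⟩ := h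
  refine ⟨X, 0, fun i _ x _ _ => x, μ, f, E, fun i => ⟨fun _ _ _ => rfl, fun _ _ _ _ => rfl,
    fun _ _ _ _ _ => rfl, fun _ _ _ _ _ => rfl, fun x y => ((hμ i y x).2).symm,
    fun x y => (hμ i x y).1⟩, hf, fun _ _ x hx _ _ _ _ => hx, hE, rfl⟩

end Pool.Agent.H336.Gumm
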