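import Pool.Agent.H336.Gumm.Main

/-!
# Uniform hypergraphs which are unions of relations closed under Gumm operations
-/

set_option autoImplicit false
set_option linter.unusedSectionVars false

namespace Pool.Agent.H336.Gumm

open Finset Classical
open Pool.Agent.R181.Maj (edge edge_injective amgm SpanMore union_eq)

theorem sparse_bound {A : Type} [Fintype A] {X : Fin 3 → Type} {f : ∀ i, A → X i} (hN : Nice f)
    (e : ℕ) (he : 1 ≤ e)
    (hs : ∀ T : Finset A, #T = e → e + 3 < ∑ i, #(T.image (f i))) :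
    Fintype.card A ^ 2 ≤ (e - 1) ^ 2 * ∏ i, #((univ : Finset A).image (f i)) := by
  refine total (e - 1) fun z => ?_
  by_contra hcon
  push Not at hcon
  have hz : e ≤ #(uc f z) := by omega
  by_cases hv : e + 3 ≤ vn fun i => (uc f z).image (f i)
  · obtain ⟨B, -, hBk, hBe⟩ := greedy hN z (e + 3) (by omega) hv
    have h1 : e ≤ #{x ∈ uc f z | Ins f B x} := by
      have h3 : en f (uc f z) B = #{x ∈ uc f z | Ins f B x} := rfl
      omega
    obtain ⟨T, hT, hTe⟩ := exists_subset_card_eq h1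
    have h2 := hs T hTe
    have h3 : ∑ i, #(T.image (f i)) ≤ vn B := sum_le_sum fun i _ => card_le_card fun a ha => by
      obtain ⟨x, hx, rfl⟩ := mem_image.1 ha
      exact (mem_filter.1 (hT hx)).2 i
    omega
  · obtain ⟨T, hT, hTe⟩ := exists_subset_card_eq hz
    have h2 := hs T hTe
    have h3 : ∑ i, #(T.image (f i)) ≤ vn fun i => (uc f z).image (f i) :=
      sum_le_sum fun i _ => card_le_card (image_subset_image hT)
    omega

/-- `F` is a relation between `r` pairwise disjoint sets of vertices, closed under the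
componentwise application of some Gumm operations on these sets. -/
def GummPieceR {V : Type} (r : ℕ) (F : Set (Finset V)) : Prop :=
  ∃ (X : Fin r → Type) (n : ℕ) (q : ∀ i, ℕ → X i → X i → X i → X i)
    (p : ∀ i, X i → X i → X i → X i) (f : (Σ i, X i) → V) (E : Set (∀ i, X i)),
    (∀ i, IsGumm n (q i) (p i)) ∧ Function.Injective f ∧
    (∀ k ≤ n, ∀ x ∈ E, ∀ y ∈ E, ∀ z ∈ E, (fun i => q i k (x i) (y i) (z i)) ∈ E) ∧
    (∀ x ∈ E, ∀ y ∈ E, ∀ z ∈ E, (fun i => p i (x i) (y i) (z i)) ∈ E) ∧ F = edge f '' E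

theorem nice_piece {r : ℕ} {X : Fin r → Type} {n : ℕ} {q : ∀ i, ℕ → X i → X i → X i → X i}
    {p : ∀ i, X i → X i → X i → X i} {E : Set (∀ i, X i)} (hG : ∀ i, IsGumm n (q i) (p i))
    (hq : ∀ k ≤ n, ∀ x ∈ E, ∀ y ∈ E, ∀ z ∈ E, (fun i => q i k (x i) (y i) (z i)) ∈ E)
    (hp : ∀ x ∈ E, ∀ y ∈ E, ∀ z ∈ E, (fun i => p i (x i) (y i) (z i)) ∈ E)
    [Fintype {x // x ∈ E}] (σ : Fin 3 → Fin r) :
    Nice (A := {x // x ∈ E}) (X := fun j => X (σ j)) fun j x => x.1 (σ j) := by
  let A : Type := {x // x ∈ E}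
  let g : ∀ j, A → X (σ j) := fun j x => x.1 (σ j)
  let q' : ℕ → A → A → A → A := fun j x y z =>
    if h : j ≤ n then ⟨fun i => q i j (x.1 i) (y.1 i) (z.1 i), hq j h _ x.2 _ y.2 _ z.2⟩ else x
  let p' : A → A → A → A := fun x y z =>
    ⟨fun i => p i (x.1 i) (y.1 i) (z.1 i), hp _ x.2 _ y.2 _ z.2⟩
  have hq' : ∀ (j : ℕ) (hj : j ≤ n) (x y z : A), q' j x y z =
      ⟨fun i => q i j (x.1 i) (y.1 i) (z.1 i), hq j hj _ x.2 _ y.2 _ z.2⟩ :=
    fun j hj x y z => dif_pos hj
  have hgumm : IsGumm n q' p' := by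
    refine ⟨?_, ?_, ?_, ?_, ?_, ?_⟩
    · intro x y z
      rw [hq' 0 (Nat.zero_le _)]
      exact Subtype.ext (funext fun i => (hG i).first _ _ _)
    · intro j hj x y
      rw [hq' j hj]
      exact Subtype.ext (funext fun i => (hG i).mid j hj _ _)
    · intro j hj he x y
      rw [hq' j hj.le, hq' (j + 1) hj]
      exact Subtype.ext (funext fun i => (hG i).even j hj he _ _)
    · intro j hj he x y
      rw [hq' j hj.le, hq' (j + 1) hj]
      exact Subtype.ext (funext fun i => (hG i).odd j hj he _ _)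
    · intro x y
      rw [hq' n le_rfl]
      exact Subtype.ext (funext fun i => (hG i).last _ _)
    · intro x y
      exact Subtype.ext (funext fun i => (hG i).diff _ _)
  have hcg : ∀ i, Cg n q' p' (ker g i) := by
    intro i
    refine ⟨fun j hj => ?_, ?_⟩
    · intro a a' b b' c c' h1 h2 h3
      show (q' j a b c).1 (σ i) = (q' j a' b' c').1 (σ i)
      have h1' : a.1 (σ i) = a'.1 (σ i) := h1
      have h2' : b.1 (σ i) = b'.1 (σ i) := h2
      have h3' : c.1 (σ i) = c'.1 (σ i) := h3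
      rw [hq' j hj, hq' j hj]
      show q (σ i) j (a.1 (σ i)) (b.1 (σ i)) (c.1 (σ i)) =
        q (σ i) j (a'.1 (σ i)) (b'.1 (σ i)) (c'.1 (σ i))
      rw [h1', h2', h3']
    · intro a a' b b' c c' h1 h2 h3
      have h1' : a.1 (σ i) = a'.1 (σ i) := h1
      have h2' : b.1 (σ i) = b'.1 (σ i) := h2
      have h3' : c.1 (σ i) = c'.1 (σ i) := h3
      show p (σ i) (a.1 (σ i)) (b.1 (σ i)) (c.1 (σ i)) =
        p (σ i) (a'.1 (σ i)) (b'.1 (σ i)) (c'.1 (σ i))
      rw [h1', h2', h3']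
  exact nice_of_gumm hgumm hcg

/-- Some three cyclically consecutive numbers have at most the average sum. -/
theorem small_three (k : ℕ) (c : Fin (k + 3) → ℕ) : ∃ σ : Fin 3 → Fin (k + 3),
    Function.Injective σ ∧ (k + 3) * ∑ j, c (σ j) ≤ 3 * ∑ i, c i := by
  have h0 : 3 ≤ k + 3 := by omega
  have h1 : ∑ s : Fin (k + 3), (k + 3) * ∑ j : Fin 3, c (s + Fin.castLE h0 j) ≤
      ∑ _s : Fin (k + 3), 3 * ∑ i, c i := by
    rw [← mul_sum, sum_comm]
    have h2 : ∀ j : Fin 3, ∑ s : Fin (k + 3), c (s + Fin.castLE h0 j) = ∑ i, c i := fun j =>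
      Equiv.sum_comp (Equiv.addRight (Fin.castLE h0 j)) c
    rw [sum_congr rfl fun j _ => h2 j, sum_const, sum_const, card_univ, card_univ,
      Fintype.card_fin, Fintype.card_fin, smul_eq_mul, smul_eq_mul]
  obtain ⟨s, -, hs⟩ := exists_le_of_sum_le univ_nonempty h1
  exact ⟨fun j => s + Fin.castLE h0 j,
    (add_right_injective s).comp (Fin.castLE_injective h0), hs⟩

theorem pieceR_bound {V : Type} [Fintype V] {r e : ℕ} (hr : 3 ≤ r) (he : 1 ≤ e)
    {H : Set (Finset V)} (hH : SpanMore H e ((r - 2) * e + 3)) {F : Set (Finset V)}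
    (hF : GummPieceR r F) (hFH : F ⊆ H) :
    r ^ 3 * F.ncard ^ 2 ≤ (e - 1) ^ 2 * Fintype.card V ^ 3 := by
  obtain ⟨k, rfl⟩ : ∃ k, r = k + 3 := ⟨r - 3, by omega⟩
  obtain ⟨X, n, q, p, f, E, hG, hf, hq, hp, rfl⟩ := hF
  have hfi : ∀ i, Function.Injective fun a : X i => f ⟨i, a⟩ := fun i a b hab =>
    eq_of_heq (Sigma.mk.inj (hf hab)).2
  have : ∀ i, Finite (X i) := fun i => Finite.of_injective _ (hfi i)
  let _ : ∀ i, Fintype (X i) := fun i => Fintype.ofFinite (X i)
  let _ : Fintype {x // x ∈ E} := Fintype.ofFinite _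
  obtain ⟨σ, hσ, hsum⟩ := small_three k fun i => Fintype.card (X i)
  have hN := nice_piece hG hq hp σ
  have hs : ∀ T : Finset {x // x ∈ E}, #T = e →
      e + 3 < ∑ j, #(T.image fun x => x.1 (σ j)) := by
    intro T hTe
    set T' : Finset (∀ i, X i) := T.image Subtype.val with hT'
    have h1 := hH (T'.image (edge f)) (by
      rw [coe_image]
      rintro a ⟨x, hx, rfl⟩
      obtain ⟨y, -, rfl⟩ := mem_image.1 (mem_coe.1 hx)
      exact hFH ⟨y.1, y.2, rfl⟩)
      (by rw [card_image_of_injective _ (edge_injective hf), hT',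
        card_image_of_injective _ Subtype.val_injective, hTe])
    rw [union_eq hf] at h1
    have h2 : k + 3 - 2 = k + 1 := by omega
    rw [h2, ← sum_add_sum_compl (univ.image σ)] at h1
    have h3 : ∑ i ∈ univ.image σ, #(T'.image fun x => x i) =
        ∑ j, #(T.image fun x => x.1 (σ j)) := by
      rw [sum_image fun a _ b _ h => hσ h]
      refine sum_congr rfl fun j _ => ?_
      rw [hT', image_image]
      rfl
    have h4 : ∑ i ∈ (univ.image σ)ᶜ, #(T'.image fun x => x i) ≤ k * e := by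
      have h5 : #((univ.image σ)ᶜ) = k := by
        rw [card_compl, card_image_of_injective _ hσ, card_univ, Fintype.card_fin,
          Fintype.card_fin]
        omega
      have h6 : ∀ i ∈ (univ.image σ)ᶜ, #(T'.image fun x => x i) ≤ e := fun i _ =>
        card_image_le.trans (by rw [hT']; exact card_image_le.trans_eq hTe)
      have h7 := sum_le_card_nsmul _ _ _ h6
      rwa [h5, smul_eq_mul] at h7
    rw [h3] at h1
    have h8 : (k + 1) * e = k * e + e := by ring
    omega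
  have h1 := sparse_bound hN e he hs
  have h2 : (edge f '' E).ncard = Fintype.card {x // x ∈ E} := by
    rw [Set.ncard_image_of_injective _ (edge_injective hf), ← Nat.card_coe_set_eq,
      Nat.card_eq_fintype_card]
  have h3 : ∏ j, #((univ : Finset {x // x ∈ E}).image fun x => x.1 (σ j)) ≤
      ∏ j, Fintype.card (X (σ j)) := prod_le_prod' fun i _ => card_le_univ _
  have h4 := amgm (univ : Finset (Fin 3)) univ_nonempty fun j => Fintype.card (X (σ j))
  rw [card_univ, Fintype.card_fin] at h4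
  have h5 : ∑ i, Fintype.card (X i) ≤ Fintype.card V := by
    rw [← Fintype.card_sigma]
    exact Fintype.card_le_of_injective f hf
  rw [h2]
  have h6 : 27 * ((k + 3) ^ 3 * Fintype.card {x // x ∈ E} ^ 2) ≤
      27 * ((e - 1) ^ 2 * Fintype.card V ^ 3) := by
    calc 27 * ((k + 3) ^ 3 * Fintype.card {x // x ∈ E} ^ 2)
        ≤ 27 * ((k + 3) ^ 3 * ((e - 1) ^ 2 * ∏ j, Fintype.card (X (σ j)))) :=
          Nat.mul_le_mul_left _ (Nat.mul_le_mul_left _ (h1.trans (Nat.mul_le_mul_left _ h3)))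
      _ = (e - 1) ^ 2 * (k + 3) ^ 3 * (3 ^ 3 * ∏ j, Fintype.card (X (σ j))) := by ring
      _ ≤ (e - 1) ^ 2 * (k + 3) ^ 3 * (∑ j, Fintype.card (X (σ j))) ^ 3 :=
          Nat.mul_le_mul_left _ h4
      _ = (e - 1) ^ 2 * ((k + 3) * ∑ j, Fintype.card (X (σ j))) ^ 3 := by ring
      _ ≤ (e - 1) ^ 2 * (3 * Fintype.card V) ^ 3 := Nat.mul_le_mul_left _
          (Nat.pow_le_pow_left (hsum.trans (Nat.mul_le_mul_left _ h5)) _)
      _ = 27 * ((e - 1) ^ 2 * Fintype.card V ^ 3) := by ring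
  exact Nat.le_of_mul_le_mul_left h6 (by norm_num)

theorem upperR (r e L : ℕ) (hr : 3 ≤ r) (he : 1 ≤ e) (V : Type) [Fintype V] (H : Set (Finset V))
    (hH : SpanMore H e ((r - 2) * e + 3)) (F : Fin L → Set (Finset V))
    (hF : ∀ i, GummPieceR r (F i)) (hFH : ∀ i, F i ⊆ H) :
    ((⋃ i, F i).ncard : ℝ) ≤ (e - 1) * L * ((Fintype.card V : ℝ) / r) ^ (3 / 2 : ℝ) := by
  have hs1 : (0 : ℝ) ≤ (e : ℝ) - 1 := by
    have : (1 : ℝ) ≤ e := by exact_mod_cast he
    linarith
  have hr0 : (0 : ℝ) < r := by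
    have : (3 : ℝ) ≤ r := by exact_mod_cast hr
    linarith
  have h1 : ∀ i, ((F i).ncard : ℝ) ≤ (e - 1) * ((Fintype.card V : ℝ) / r) ^ (3 / 2 : ℝ) := by
    intro i
    have h2 := pieceR_bound hr he hH (hF i) (hFH i)
    refine le_of_pow_le_pow_left₀ (n := 2) (by norm_num) (by positivity) ?_
    have h3 : (((Fintype.card V : ℝ) / r) ^ (3 / 2 : ℝ)) ^ 2 = ((Fintype.card V : ℝ) / r) ^ 3 := by
      rw [← Real.rpow_natCast, ← Real.rpow_mul (by positivity)]
      norm_num
    rw [mul_pow, h3]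
    have h4 : ((r ^ 3 * (F i).ncard ^ 2 : ℕ) : ℝ) ≤
        (((e - 1) ^ 2 * Fintype.card V ^ 3 : ℕ) : ℝ) := by exact_mod_cast h2
    rw [Nat.cast_mul, Nat.cast_mul, Nat.cast_pow, Nat.cast_pow, Nat.cast_pow, Nat.cast_pow,
      Nat.cast_sub he, Nat.cast_one] at h4
    rw [div_pow, ← mul_div_assoc, le_div_iff₀ (by positivity)]
    linarith
  have h6 : (⋃ i, F i).ncard ≤ ∑ i : Fin L, (F i).ncard := Set.ncard_iUnion_le_of_fintype F
  calc ((⋃ i, F i).ncard : ℝ) ≤ ((∑ i : Fin L, (F i).ncard : ℕ) : ℝ) := by exact_mod_cast h6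
    _ = ∑ i : Fin L, ((F i).ncard : ℝ) := by push_cast; rfl
    _ ≤ ∑ _i : Fin L, (e - 1) * ((Fintype.card V : ℝ) / r) ^ (3 / 2 : ℝ) :=
        sum_le_sum fun i _ => h1 i
    _ = (e - 1) * L * ((Fintype.card V : ℝ) / r) ^ (3 / 2 : ℝ) := by
        rw [sum_const, card_univ, Fintype.card_fin, nsmul_eq_mul]; ring

end Pool.Agent.H336.Gumm
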